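import Pool.Agent.K7.H12.GL.Defs

/-!
# Project GL, job MAIN: the induction
-/

set_option autoImplicit false

namespace Pool.Agent.K7.H20.GL

open Pool.Agent.K7.H12.GL Cardinal

section
variable {L : Type} [CompleteLattice L] {ρ : L → ℕ}

lemma covBy_of (hG : Geo L ρ) {x y : L} (hxy : x ≤ y) (h : ρ y = ρ x + 1) : x ⋖ y := by
  have hne : x ≠ y := by
    rintro rfl
    omega
  refine ⟨lt_of_le_of_ne hxy hne, fun c h1 h2 => ?_⟩
  have h3 := hG.mono h1
  have h4 := hG.mono h2
  omega

/-- rank at most two -/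
lemma small (hG : Geo L ρ) (hB : Base L ρ) {a : L} {A : Set L} (hA : ∀ p ∈ A, a ⋖ p)
    (hr : ρ (tp a A) < ρ a + 3) : T ρ a A := by
  classical
  refine ⟨fun p i => if i = 1 then p else tp a A, fun p hp => ⟨if_pos rfl, ?_, ?_, ?_⟩⟩
  · intro i hi h
    have hi1 : i = 1 := by omega
    subst hi1
    simp only [if_true]
    rw [if_neg (by norm_num)]
    have hp' := hG.cov a p (hA p hp)
    exact covBy_of hG (hB.le_tp a A p (hB.point a A hA p hp)).2 (by omega)
  · intro i hi h
    show (if i = 1 then p else tp a A) ∈ Sp a A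
    by_cases hi1 : i = 1
    · rw [if_pos hi1]
      exact hB.point a A hA p hp
    · rw [if_neg hi1]
      exact ⟨A, subset_rfl, rfl⟩
  · intro q hq i hi h heq
    have hi1 : i = 1 := by omega
    simp only [hi1, if_true] at heq
    exact heq

end

/-- **MAIN** -/
theorem main (hF : StFinite) (h1 : StCase1) (h2 : StCase2) : StMain := by
  intro L _ ρ hG hB a A hA
  suffices H : ∀ (n : ℕ) (κ : Cardinal.{0}) (a : L) (A : Set L), #A = κ → (∀ p ∈ A, a ⋖ p) →
      ρ (tp a A) ≤ ρ a + n → T ρ a A from
    H (ρ (tp a A)) _ a A rfl hA (Nat.le_add_left _ _)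
  intro n
  induction n with
  | zero =>
    intro κ a A _ hA hr
    exact small hG hB hA (by omega)
  | succ n ihn =>
    intro κ
    induction κ using WellFoundedLT.induction with
    | ind κ ihκ =>
      intro a A hκ hA hr
      by_cases hfin : A.Finite
      · exact hF L ρ hG hB a A hfin hA
      by_cases hk : ρ (tp a A) < ρ a + 3
      · exact small hG hB hA hk
      have hk' : ρ a + 3 ≤ ρ (tp a A) := not_lt.1 hk
      have hinf : ℵ₀ ≤ #A := by
        have : Infinite A := Set.Infinite.to_subtype hfin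
        exact aleph0_le_mk A
      by_cases hp : ∀ p ∈ A, ∀ q ∈ A, #(Ln A p) < #A → #(Ln A q) < #A → p = q
      · refine h1 L ρ hG hB a A hA hk' hinf (fun p hpA => ?_) hp
        obtain ⟨l1, l2, l3⟩ := hB.lines a A hA p hpA
        have h3 := hG.cov a p (hA p hpA)
        exact ihn _ p (Ln A p) rfl l1 (by rw [l2]; omega)
      · push Not at hp
        obtain ⟨p, hpA, q, hqA, hlp, hlq, hne⟩ := hp
        refine h2 L ρ hG hB a A hA hk' hinf (fun E hE hEc => ?_) p hpA q hqA hne hlp hlq
        refine ihκ (#E) (by rw [← hκ]; exact hEc) a E rfl (fun p hp => hA p (hE hp)) ?_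
        have h3 : tp a E ≤ tp a A := sup_le_sup_left (sSup_le_sSup hE) a
        have h4 := hG.mono.monotone h3
        omega

end Pool.Agent.K7.H20.GL
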